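import Mathlib
import Pool.Agent.Helper108.KN.Final

/-!
# Comparing lcms of adjacent blocks: the reversed inequality holds for large `k`

`L m k` is the least common multiple of `m + 1, …, m + k`.  The file proves that for every
exponent `θ < 5 / 9` there are infinitely many `n` for which the reversed inequality
`L(n; k) < L(n - k; k)` holds for some `k` with `n ^ θ < k < n`.  In terms of the largest `k = k(n)`
for which the inequality of the problem is reversed: `k(n) > n ^ θ` infinitely often.
-/

set_option autoImplicit false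

namespace Pool.Agent.Results.MP_ff0ae1_nt.LargeReversals

/-- The least common multiple of the `k` integers `m + 1, …, m + k`. -/
def L (m k : ℕ) : ℕ := (Finset.Icc (m + 1) (m + k)).lcm id

/-- For every `θ < 5 / 9` there are infinitely many `n` such that `L(n; k) < L(n - k; k)` for some
`k` with `n ^ θ < k < n`. -/
theorem result (θ : ℝ) (hθ : θ < 5 / 9) : ∀ N : ℕ, ∃ n : ℕ, N ≤ n ∧
    ∃ k : ℕ, 1 ≤ k ∧ k < n ∧ (n : ℝ) ^ θ < k ∧ L n k < L (n - k) k := by
  intro N
  obtain ⟨n, hn, hk⟩ := Pool.Agent.Helper108.KN.Final.kmax_large θ hθ (max N 1)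
  have hn1 : 1 ≤ n := (le_max_right _ _).trans hn
  have h0 : Pool.Agent.Helper108.KN.kmax n ≠ 0 := by
    intro h
    rw [h, Nat.cast_zero] at hk
    have : (0 : ℝ) ≤ (n : ℝ) ^ θ := by positivity
    linarith
  obtain ⟨h1, h2, h3⟩ := Pool.Agent.Helper108.KN.kmax_spec h0
  exact ⟨n, (le_max_left _ _).trans hn, _, h1, h2, hk, h3⟩

end Pool.Agent.Results.MP_ff0ae1_nt.LargeReversals
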